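import Pool.Agent.Work.MP_3892ce_gt.Final

/-! # Melzak's problem for polytopes with at most five facets

`HP n b` is the set of all points which satisfy the five inequalities `⟪n i, x⟫ ≤ b i`;
`zeta1 P` is the total edge length of `P`: the sum of the diameters of the exposed faces of `P`
which are nondegenerate segments; `IsArchPrism P` says that `P` is an Archimedean 3-sided prism. -/

set_option autoImplicit false

namespace Pool.Agent.Work.MP_3892ce_gt_superseded.FiveFacets

open MeasureTheory Pool.Agent.Work.MP_3892ce_gt

theorem result (n : Fin 5 → E3) (b : Fin 5 → ℝ) (P : Set E3)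
    (hP : P = {x | ∀ i, inner ℝ (n i) x ≤ b i})
    (hbd : Bornology.IsBounded P) (hint : (interior P).Nonempty) :
    ENNReal.ofReal (972 * Real.sqrt 3) * volume P ≤ zeta1 P ^ 3 ∧
    (ENNReal.ofReal (972 * Real.sqrt 3) * volume P = zeta1 P ^ 3 ↔ IsArchPrism P) := by
  subst hP
  obtain ⟨A, B, hC⟩ := red (n := n) (b := b) hbd hint
  refine hC.main ?_
  have h1 : volume (interior (HP n b)) ≠ 0 := (isOpen_interior.measure_pos volume hint).ne'
  intro h0
  exact h1 (measure_mono_null interior_subset h0)

end Pool.Agent.Work.MP_3892ce_gt_superseded.FiveFacets
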