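import Pool.Agent.Work.MP_3892ce_helper74.Fin

/-! # Melzak's problem for prismatoids

`zeta1 P` is the total edge length of `P`: the sum of the diameters of the exposed faces of `P`
which are nondegenerate segments; `volume P` is the volume. A prismatoid is a polytope all of whose
vertices lie in two parallel planes, that is, the convex hull of two finite sets `A` and `B` which
lie in two distinct parallel planes. -/

set_option autoImplicit false

namespace Pool.Agent.Work.MP_3892ce_gt_superseded.Prismatoids

open MeasureTheory Pool.Agent.Work.MP_3892ce_gt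

theorem result (A B : Finset E3) (n : E3) (c d : ℝ) (hn : n ≠ 0) (hcd : c ≠ d)
    (hA : ∀ x ∈ A, inner ℝ n x = c) (hB : ∀ x ∈ B, inner ℝ n x = d) :
    ENNReal.ofReal (972 * Real.sqrt 3) * volume (convexHull ℝ ((A : Set E3) ∪ B)) ≤
      zeta1 (convexHull ℝ ((A : Set E3) ∪ B)) ^ 3 ∧
    (volume (convexHull ℝ ((A : Set E3) ∪ B)) ≠ 0 →
      ENNReal.ofReal (972 * Real.sqrt 3) * volume (convexHull ℝ ((A : Set E3) ∪ B)) =
        zeta1 (convexHull ℝ ((A : Set E3) ∪ B)) ^ 3 →
      IsArchPrism (convexHull ℝ ((A : Set E3) ∪ B))) :=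
  Pool.Agent.Work.MP_3892ce_gt.helper74.full_prismatoid hn hcd hA hB

end Pool.Agent.Work.MP_3892ce_gt_superseded.Prismatoids
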